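import Pool.Agent.Y320.ST.Stm
import Pool.Agent.Y320.CM.Basic

/-!
# ST-EQC: equicontinuity and equi-injectivity of normalised quasi-Moebius maps (helper448)
-/

set_option autoImplicit false
open Filter Topology MeasureTheory Metric

namespace Pool.Agent.Y448.ST
open Pool.Agent.Y320.CM Pool.Agent.Y320.ST

/-- two of three separated points are far from a given point -/
theorem two_far {c : ℝ} {b1 b2 b3 : Sph} (h12 : c ≤ dist b1 b2) (h13 : c ≤ dist b1 b3)
    (h23 : c ≤ dist b2 b3) (z : Sph) :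
    (c / 2 ≤ dist z b1 ∧ c / 2 ≤ dist z b2) ∨ (c / 2 ≤ dist z b1 ∧ c / 2 ≤ dist z b3) ∨
      (c / 2 ≤ dist z b2 ∧ c / 2 ≤ dist z b3) := by
  have t12 := dist_triangle_left b1 b2 z
  have t13 := dist_triangle_left b1 b3 z
  have t23 := dist_triangle_left b2 b3 z
  by_cases g1 : c / 2 ≤ dist z b1
  · by_cases g2 : c / 2 ≤ dist z b2
    · exact Or.inl ⟨g1, g2⟩
    · refine Or.inr (Or.inl ⟨g1, ?_⟩)
      push Not at g2
      linarith
  · push Not at g1
    refine Or.inr (Or.inr ⟨?_, ?_⟩) <;> linarith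

theorem ne_of_le_dist {c : ℝ} (hc : 0 < c) {p q : Sph} (h : c ≤ dist p q) : p ≠ q :=
  dist_pos.1 (lt_of_lt_of_le hc h)

/-- the upper estimate for one pair -/
theorem eqc_core {N : ℝ → ℝ} {c t T : ℝ} (hc : 0 < c) (hT : 0 < T) (hN : N t ≤ T) {f : Sph → Sph}
    (hf : Function.Injective f) (hq : QM N f) {x y p q : Sph} (hxy : x ≠ y)
    (h1 : dist x y ≤ c / 4) (h2 : dist x y ≤ t * c ^ 2 / 16) (hpq : c ≤ dist p q)
    (hxp : c / 2 ≤ dist x p) (hxq : c / 2 ≤ dist x q) (hfpq : c ≤ dist (f p) (f q)) :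
    dist (f x) (f y) ≤ 4 * T / c := by
  have hyq : c / 4 ≤ dist y q := by
    have := dist_triangle x y q
    linarith
  have hyp : c / 4 ≤ dist y p := by
    have := dist_triangle x y p
    linarith
  have nxp : x ≠ p := ne_of_le_dist (by positivity) hxp
  have nxq : x ≠ q := ne_of_le_dist (by positivity) hxq
  have nyp : y ≠ p := ne_of_le_dist (by positivity) hyp
  have nyq : y ≠ q := ne_of_le_dist (by positivity) hyq
  have npq : p ≠ q := ne_of_le_dist hc hpq
  have hcr : cr x y p q ≤ t := by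
    unfold cr
    have hd : 0 < dist x p * dist y q := mul_pos (dist_pos.2 nxp) (dist_pos.2 nyq)
    rw [div_le_iff₀ hd]
    have ht : 0 ≤ t := by
      have h3 : 0 < dist x y := dist_pos.2 hxy
      by_contra hcon
      push Not at hcon
      have : t * c ^ 2 / 16 < 0 := by
        have := mul_neg_of_neg_of_pos hcon (pow_pos hc 2)
        linarith
      linarith
    have h3 : dist x y * dist p q ≤ (t * c ^ 2 / 16) * 2 :=
      mul_le_mul h2 (dist_le_two p q) dist_nonneg (dist_nonneg.trans h2)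
    have h4 : (c / 2) * (c / 4) ≤ dist x p * dist y q :=
      mul_le_mul hxp hyq (by positivity) dist_nonneg
    have h5 := mul_le_mul_of_nonneg_left h4 ht
    nlinarith
  have h6 := (hq x y p q ⟨hxy, nxp, nxq, nyp, nyq, npq⟩ t hcr).trans hN
  unfold cr at h6
  have hd : 0 < dist (f x) (f p) * dist (f y) (f q) :=
    mul_pos (dist_pos.2 fun h => nxp (hf h)) (dist_pos.2 fun h => nyq (hf h))
  rw [div_le_iff₀ hd] at h6
  have h7 : dist (f x) (f p) * dist (f y) (f q) ≤ 2 * 2 :=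
    mul_le_mul (dist_le_two _ _) (dist_le_two _ _) dist_nonneg (by norm_num)
  have h8 := mul_le_mul_of_nonneg_left h7 hT.le
  have h9 := mul_le_mul_of_nonneg_left hfpq (dist_nonneg (x := f x) (y := f y))
  rw [le_div_iff₀ hc]
  linarith

theorem eqc : S_EQC := by
  intro N hG c ε hc hε
  obtain ⟨t, ht, hN⟩ := hG (ε * c / 8) (by positivity)
  refine ⟨min (c / 4) (t * c ^ 2 / 16), by positivity, fun f hf hq hn x y hxy => ?_⟩
  by_cases h : x = y
  · rw [h, dist_self]
    exact hε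
  obtain ⟨a1, a2, a3, h12, h13, h23, f12, f13, f23⟩ := hn
  have d1 : dist x y ≤ c / 4 := (hxy.trans_le (min_le_left _ _)).le
  have d2 : dist x y ≤ t * c ^ 2 / 16 := (hxy.trans_le (min_le_right _ _)).le
  have key : dist (f x) (f y) ≤ 4 * (ε * c / 8) / c := by
    rcases two_far h12 h13 h23 x with ⟨g1, g2⟩ | ⟨g1, g2⟩ | ⟨g1, g2⟩
    · exact eqc_core hc (by positivity) hN hf hq h d1 d2 h12 g1 g2 f12
    · exact eqc_core hc (by positivity) hN hf hq h d1 d2 h13 g1 g2 f13
    · exact eqc_core hc (by positivity) hN hf hq h d1 d2 h23 g1 g2 f23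
  have e : 4 * (ε * c / 8) / c = ε / 2 := by
    field_simp
    norm_num
  rw [e] at key
  linarith

/-- the lower estimate for one pair -/
theorem sep_core {N : ℝ → ℝ} {c ε : ℝ} (hc : 0 < c) (hε : 0 < ε) {f : Sph → Sph}
    (hf : Function.Injective f) (hq : QM N f) {x y p q : Sph} (hxy : ε ≤ dist x y)
    (hpq : c ≤ dist p q) (hfx : c / 2 ≤ dist (f x) (f p)) (hfy : c / 2 ≤ dist (f y) (f q)) :
    min (c / 2) ((c / 2) ^ 2 / (2 * max (N (4 / (ε * c))) 1)) ≤ dist (f x) (f y) := by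
  have nfx : f x ≠ f p := ne_of_le_dist (by positivity) hfx
  have nfy : f y ≠ f q := ne_of_le_dist (by positivity) hfy
  have nxp : x ≠ p := fun h => nfx (by rw [h])
  have nyq : y ≠ q := fun h => nfy (by rw [h])
  have nxy : x ≠ y := ne_of_le_dist hε hxy
  have npq : p ≠ q := ne_of_le_dist hc hpq
  by_cases hpy : p = y
  · rw [hpy] at hfx
    exact (min_le_left _ _).trans hfx
  by_cases hxq : x = q
  · rw [← hxq, dist_comm] at hfy
    exact (min_le_left _ _).trans hfy
  have hcr : cr x p y q ≤ 4 / (ε * c) := by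
    unfold cr
    have h1 : dist x p * dist y q ≤ 2 * 2 :=
      mul_le_mul (dist_le_two _ _) (dist_le_two _ _) dist_nonneg (by norm_num)
    have h2 : ε * c ≤ dist x y * dist p q := mul_le_mul hxy hpq hc.le dist_nonneg
    have h3 : 0 < ε * c := mul_pos hε hc
    calc dist x p * dist y q / (dist x y * dist p q) ≤ 4 / (dist x y * dist p q) := by
          refine div_le_div_of_nonneg_right ?_ (h3.le.trans h2)
          linarith
      _ ≤ 4 / (ε * c) := div_le_div_of_nonneg_left (by norm_num) h3 h2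
  have h6 := hq x p y q ⟨nxp, nxy, hxq, hpy, npq, nyq⟩ _ hcr
  unfold cr at h6
  have hfxy : 0 < dist (f x) (f y) := dist_pos.2 fun h => nxy (hf h)
  have hfpq : 0 < dist (f p) (f q) := dist_pos.2 fun h => npq (hf h)
  rw [div_le_iff₀ (mul_pos hfxy hfpq)] at h6
  refine (min_le_right _ _).trans ?_
  set A := max (N (4 / (ε * c))) 1 with hA
  have hA1 : 1 ≤ A := le_max_right _ _
  have hA2 : N (4 / (ε * c)) ≤ A := le_max_left _ _
  rw [div_le_iff₀ (by positivity)]
  have h7 : (c / 2) * (c / 2) ≤ dist (f x) (f p) * dist (f y) (f q) :=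
    mul_le_mul hfx hfy (by positivity) dist_nonneg
  have h8 : N (4 / (ε * c)) * (dist (f x) (f y) * dist (f p) (f q)) ≤
      A * (dist (f x) (f y) * dist (f p) (f q)) :=
    mul_le_mul_of_nonneg_right hA2 (mul_pos hfxy hfpq).le
  have h9 : dist (f x) (f y) * dist (f p) (f q) ≤ dist (f x) (f y) * 2 :=
    mul_le_mul_of_nonneg_left (dist_le_two _ _) hfxy.le
  have h10 := mul_le_mul_of_nonneg_left h9 (by linarith : (0 : ℝ) ≤ A)
  nlinarith

theorem sepq : S_SEPQ := by
  intro N c ε hc hε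
  refine ⟨min (c / 2) ((c / 2) ^ 2 / (2 * max (N (4 / (ε * c))) 1)), ?_, fun f hf hq hn x y hxy => ?_⟩
  · have : (0 : ℝ) < max (N (4 / (ε * c))) 1 := lt_of_lt_of_le one_pos (le_max_right _ _)
    positivity
  obtain ⟨a1, a2, a3, h12, h13, h23, f12, f13, f23⟩ := hn
  have h21 : c ≤ dist a2 a1 := by rw [dist_comm]; exact h12
  have h31 : c ≤ dist a3 a1 := by rw [dist_comm]; exact h13
  have h32 : c ≤ dist a3 a2 := by rw [dist_comm]; exact h23
  rcases two_far f12 f13 f23 (f x) with ⟨g1, g2⟩ | ⟨g1, g2⟩ | ⟨g1, g2⟩ <;>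
    rcases two_far f12 f13 f23 (f y) with ⟨k1, k2⟩ | ⟨k1, k2⟩ | ⟨k1, k2⟩
  · exact sep_core hc hε hf hq hxy h12 g1 k2
  · exact sep_core hc hε hf hq hxy h13 g1 k2
  · exact sep_core hc hε hf hq hxy h12 g1 k1
  · exact sep_core hc hε hf hq hxy h12 g1 k2
  · exact sep_core hc hε hf hq hxy h13 g1 k2
  · exact sep_core hc hε hf hq hxy h12 g1 k1
  · exact sep_core hc hε hf hq hxy h21 g1 k1
  · exact sep_core hc hε hf hq hxy h21 g1 k1
  · exact sep_core hc hε hf hq hxy h23 g1 k2

end Pool.Agent.Y448.ST
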